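import Pool.Agent.Run7.h865.LW.RIG

/-! # Assembly -/

set_option autoImplicit false

open Polynomial Finset

namespace Pool.Agent.Run7.h865.LW

lemma L_even (z : ℕ → ℤ) (P : ℤ[X]) (h : ∀ k, Even (P.coeff k)) : Even (L z P) := by
  rw [L_range z P _ (Nat.lt_succ_self _)]
  refine Finset.sum_induction _ Even (fun a b ha hb => ha.add hb) Even.zero ?_
  intro k _
  rw [smul_eq_mul]
  exact (h k).mul_right _

lemma L_geom (z : ℕ → ℤ) (N : ℕ) : L z (∑ j ∈ range N, X ^ j : ℤ[X]) = ∑ j ∈ range N, z j := by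
  rw [L_sum]
  refine Finset.sum_congr rfl fun j _ => ?_
  rw [X_pow_eq_monomial, L_monomial, one_smul]

lemma L_real_of_int (w : ℕ → ℤ) (t : ℝ) (P : ℤ[X]) (h : L w P = 0) :
    L (fun k => t * (w k : ℝ)) P = 0 := by
  rw [L_range _ P _ (Nat.lt_succ_self _)] at h ⊢
  have h1 : ((∑ k ∈ range (P.natDegree.succ), P.coeff k • w k : ℤ) : ℝ) = 0 := by rw [h]; simp
  push_cast at h1
  have h2 : ∀ k, P.coeff k • (t * (w k : ℝ)) = t * ((P.coeff k : ℝ) * (w k : ℝ)) := by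
    intro k
    rw [zsmul_eq_mul]; ring
  simp only [h2, ← Finset.mul_sum]
  simp only [smul_eq_mul, Int.cast_mul] at h1
  rw [h1, mul_zero]

/-- a Littlewood polynomial of length `N` with a zero of order `J (J - 1) / 2` at `1` -/
theorem core (hSUP : S_SUP) (hCOEF : S_COEF) (hFOU : S_FOU) (hTEST : S_TEST) (hPAR : S_PAR)
    (hBAS : S_BAS) (hNUM : S_NUM) : ∃ J₀ : ℕ, 2 ≤ J₀ ∧ ∀ J ν : ℕ, J₀ ≤ J →
      J ^ (8 * J) ≤ (J - 1).factorial * 2 ^ ν → J * J < 2 ^ ν →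
      ∃ ε : ℕ → ℤ, (∀ j, ε j = 1 ∨ ε j = -1) ∧
        ((X - 1 : ℤ[X]) ^ (J * (J - 1) / 2)) ∣
          ∑ j ∈ range ((J - 1).factorial * 2 ^ ν), Polynomial.C (ε j) * X ^ j := by
  obtain ⟨J₀, hJ₀, hnum⟩ := hNUM
  refine ⟨J₀, hJ₀, ?_⟩
  intro J ν hJ hN hν
  have hJ2 : 2 ≤ J := hJ₀.trans hJ
  obtain ⟨hb0, hbl, hd1, hdJ, hdvd, hm⟩ := hBAS J hJ2
  obtain ⟨G, hGd, hGe⟩ := hPAR J _ ν hJ2 rfl hν
  set N := (J - 1).factorial * 2 ^ ν with hNdef
  set d := D J with hd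
  obtain ⟨A, R, hA, h1, h2, h3⟩ := hnum J N d hJ hN hd1 hdJ
  set C := Real.exp ((J : ℝ) / 2 * Real.log J + J) with hC
  set K := (J : ℝ) ^ 12 * Real.log (4 * N) with hK
  have hdN : d < N := by
    have : 1 ≤ (A * d + 1) * (R + 1) := Nat.one_le_iff_ne_zero.mpr (by positivity)
    omega
  have hN1 : 1 ≤ N := by omega
  have hN1' : (1 : ℝ) ≤ N := by exact_mod_cast hN1
  have hlog0 : 0 ≤ Real.log (4 * N) := Real.log_nonneg (by linarith)
  have hK0 : 0 ≤ K := by positivity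
  obtain ⟨w, hw1, hw2, hw3⟩ := hTEST J N hJ2 hdN
  set E := (J * J + 3) * (d + 1) with hE
  have hEJ : E + 1 ≤ 2 * J ^ 12 := by
    have e1 : E ≤ (J * J + 3) * (J ^ 3 + 1) := Nat.mul_le_mul_left _ (by omega)
    have e2 : (J * J + 3) * (J ^ 3 + 1) + 1 ≤ 2 * J ^ 12 := by
      have e3 : J * J + 3 ≤ 2 * J ^ 2 + 0 ∨ J = 2 ∨ J < 2 := by
        rcases Nat.lt_or_ge J 3 with h | h
        · right; omega
        · left; nlinarith
      have e4 : 1 ≤ J ^ 3 := Nat.one_le_pow _ _ (by omega)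
      have e5 : J ^ 3 * 1 ≤ J ^ 3 := by omega
      have e6 : J * J + 3 ≤ 2 * (J * J) := by nlinarith
      have e7 : (J * J + 3) * (J ^ 3 + 1) ≤ (2 * (J * J)) * (2 * J ^ 3) :=
        Nat.mul_le_mul e6 (by omega)
      have e8 : (2 * (J * J)) * (2 * J ^ 3) = 4 * J ^ 5 := by ring
      have e9 : 2 ^ 7 ≤ J ^ 7 := Nat.pow_le_pow_left hJ2 7
      have e10 : J ^ 12 = J ^ 5 * J ^ 7 := by ring
      have e11 : 1 ≤ J ^ 5 := Nat.one_le_pow _ _ (by omega)
      nlinarith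
    omega
  obtain ⟨q, hq⟩ : ∃ q : ℕ, q = (4 * N) ^ E + 1 := ⟨_, rfl⟩
  have hq0 : 0 < q := by omega
  have hwq : ∑ j ∈ range N, |w j| < (q : ℤ) := by
    rw [hq]; push_cast
    linarith
  have hqK : (q : ℝ) ≤ Real.exp (2 * K) := by
    have e1 : (q : ℝ) ≤ (4 * (N : ℝ)) ^ (E + 1) := by
      rw [hq]; push_cast
      have : (1 : ℝ) ≤ (4 * (N : ℝ)) ^ E := one_le_pow₀ (by linarith)
      rw [pow_succ]
      nlinarith
    refine e1.trans ?_
    have e2 : (4 * (N : ℝ)) ^ (E + 1) = Real.exp (((E + 1 : ℕ) : ℝ) * Real.log (4 * N)) := by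
      rw [Real.exp_nat_mul, Real.exp_log (by linarith)]
    rw [e2]
    apply Real.exp_le_exp.mpr
    rw [hK, ← mul_assoc]
    apply mul_le_mul_of_nonneg_right _ hlog0
    exact_mod_cast hEJ
  obtain ⟨ε, hε, hε0⟩ := hFOU N q w K hq0 hwq hqK (by
    intro a ha
    set h : ℕ → ℝ := fun j => 2 * (a : ℝ) * w j / q with hh
    have hrec : ∀ j : ℕ, j + (B J).natDegree < N → L (fun k => h (j + k)) (B J) = 0 := by
      intro j hj
      have := L_real_of_int (fun k => w (j + k)) (2 * (a : ℝ) / q) (B J) (hw1 j hj)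
      have e : (fun k => h (j + k)) = fun k => 2 * (a : ℝ) / q * ((w (j + k) : ℤ) : ℝ) := by
        funext k
        rw [hh]; ring
      rw [e]; exact this
    have hz := t_RIG (B J) N A R K C h hb0 hbl hd1 hdvd
      (hCOEF (B J) C (hSUP J hJ2)) hK0 ha hrec hA h1 (by
        have := h2
        exact this) h3
    -- parity
    have e1 : (∑ j ∈ range N, X ^ j : ℤ[X]) = B J * G + (∑ j ∈ range N, X ^ j - B J * G) := by ring
    rw [← L_geom (fun j => round (h j)) N, e1, L_add]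
    have e2 : L (fun j => round (h j)) (B J * G) = 0 := by
      rw [L_mul _ _ G _ (Nat.lt_succ_self _)]
      refine Finset.sum_eq_zero fun i hi => ?_
      rw [mem_range] at hi
      rw [hz i (by have : (B J).natDegree = d := rfl; omega), smul_zero]
    rw [e2, zero_add]
    exact L_even _ _ hGe)
  refine ⟨ε, hε, hm.trans (hw2 ε ?_ hε0)⟩
  intro j
  rcases hε j with h | h <;> rw [h] <;> simp

end Pool.Agent.Run7.h865.LW
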