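import Pool.Agent.Run7.h865.LW.Core
import Pool.Agent.Run7.h888.LW.SUP
import Pool.Agent.Run7.h888.LW.COEF
import Pool.Agent.Run7.h888.LW.FOU
import Pool.Agent.Run7.h194.LW.PAR
import Pool.Agent.Run7.h194.LW.BAS
import Pool.Agent.Run7.h194.LW.NUM
import Pool.Agent.Run7.h547.LW.TEST

/-! # Littlewood polynomials of length `N` with a zero of order `J (J - 1) / 2` at `1` -/

set_option autoImplicit false

open Polynomial Finset

namespace Pool.Agent.Run7.h865.LW

theorem core' : ∃ J₀ : ℕ, 2 ≤ J₀ ∧ ∀ J ν : ℕ, J₀ ≤ J →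
      J ^ (8 * J) ≤ (J - 1).factorial * 2 ^ ν → J * J < 2 ^ ν →
      ∃ ε : ℕ → ℤ, (∀ j, ε j = 1 ∨ ε j = -1) ∧
        ((X - 1 : ℤ[X]) ^ (J * (J - 1) / 2)) ∣
          ∑ j ∈ range ((J - 1).factorial * 2 ^ ν), Polynomial.C (ε j) * X ^ j :=
  core Pool.Agent.Run7.h888.LW.t_SUP Pool.Agent.Run7.h888.LW.t_COEF Pool.Agent.Run7.h888.LW.t_FOU
    Pool.Agent.Run7.h547.LW.t_TEST Pool.Agent.Run7.h194.LW.t_PAR Pool.Agent.Run7.h194.LW.t_BAS
    Pool.Agent.Run7.h194.LW.t_NUM

/-- from the signs to the polynomial -/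
lemma poly_of_signs (N m : ℕ) (hN : 1 ≤ N) (ε : ℕ → ℤ) (hε : ∀ j, ε j = 1 ∨ ε j = -1)
    (hd : ((X - 1 : ℤ[X]) ^ m) ∣ ∑ j ∈ range N, Polynomial.C (ε j) * X ^ j) :
    ∃ p : ℝ[X], (p.natDegree = N - 1 ∧ ∀ j ≤ N - 1, p.coeff j = 1 ∨ p.coeff j = -1) ∧
      m ≤ p.rootMultiplicity 1 := by
  set P : ℤ[X] := ∑ j ∈ range N, Polynomial.C (ε j) * X ^ j with hP
  have hcoeff : ∀ j, P.coeff j = if j < N then ε j else 0 := by
    intro j
    rw [hP, finsetSum_coeff]
    simp only [coeff_C_mul, coeff_X_pow, mul_ite, mul_one, mul_zero]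
    rw [Finset.sum_ite_eq]
    simp
  refine ⟨P.map (Int.castRingHom ℝ), ⟨?_, ?_⟩, ?_⟩
  · rw [natDegree_map_eq_of_injective (Int.castRingHom ℝ).injective_int]
    apply natDegree_eq_of_le_of_coeff_ne_zero
    · rw [natDegree_le_iff_coeff_eq_zero]
      intro j hj
      rw [hcoeff, if_neg (by omega)]
    · rw [hcoeff, if_pos (by omega)]
      rcases hε (N - 1) with h | h <;> rw [h] <;> norm_num
  · intro j hj
    rw [coeff_map, hcoeff, if_pos (by omega)]
    rcases hε j with h | h <;> rw [h]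
    · left; simp
    · right; simp
  · have hne : P.map (Int.castRingHom ℝ) ≠ 0 := by
      rw [Ne, Polynomial.map_eq_zero_iff (Int.castRingHom ℝ).injective_int]
      intro h0
      have := hcoeff 0
      rw [h0, coeff_zero, if_pos (by omega)] at this
      rcases hε 0 with h | h <;> rw [h] at this <;> norm_num at this
    rw [le_rootMultiplicity_iff hne]
    have := Polynomial.map_dvd (Int.castRingHom ℝ) hd
    simpa using this

lemma sq_le_four (J : ℕ) (hJ : 2 ≤ J) : J ^ 2 ≤ 4 * (J * (J - 1) / 2) := by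
  have h2 : 2 ∣ J * (J - 1) := (Nat.even_mul_pred_self J).two_dvd
  obtain ⟨t, ht⟩ := h2
  rw [ht, Nat.mul_div_cancel_left _ (by norm_num)]
  obtain ⟨s, rfl⟩ : ∃ s, J = s + 1 := ⟨J - 1, by omega⟩
  simp only [Nat.add_sub_cancel] at ht
  nlinarith

/-- For all large `n` there are `n / 2 ≤ k ≤ n` and a Littlewood polynomial of degree `k` with a zero of
order `≥ (log n / log log n) ^ 2 / 1600` at `1`. -/
theorem large : ∃ n₀ : ℕ, ∀ n : ℕ, n₀ ≤ n → ∃ (k : ℕ) (p : ℝ[X]), n ≤ 2 * k ∧ k ≤ n ∧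
    (p.natDegree = k ∧ ∀ j ≤ k, p.coeff j = 1 ∨ p.coeff j = -1) ∧
    1 / 1600 * (Real.log n / Real.log (Real.log n)) ^ 2 ≤ (p.rootMultiplicity 1 : ℝ) := by
  obtain ⟨J₀, hJ₀, hcore⟩ := core'
  set J₁ := max J₀ 10 with hJ₁
  refine ⟨2 * J₁ ^ (8 * J₁), ?_⟩
  intro n hn
  -- the largest `J`
  obtain ⟨J, hJ1, hJn, hJmax⟩ : ∃ J, J₁ ≤ J ∧ 2 * J ^ (8 * J) ≤ n ∧ n < 2 * (J + 1) ^ (8 * (J + 1)) := by
    have hb : ∀ J, n ≤ J → n < 2 * (J + 1) ^ (8 * (J + 1)) := by
      intro J hJ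
      have : (J + 1) ^ 1 ≤ (J + 1) ^ (8 * (J + 1)) := Nat.pow_le_pow_right (by omega) (by omega)
      rw [pow_one] at this
      omega
    classical
    have hex : ∃ J, J₁ ≤ J ∧ n < 2 * (J + 1) ^ (8 * (J + 1)) :=
      ⟨max J₁ n, le_max_left _ _, hb _ (le_max_right _ _)⟩
    obtain ⟨h1, h2⟩ := Nat.find_spec hex
    refine ⟨Nat.find hex, h1, ?_, h2⟩
    rcases Nat.eq_or_lt_of_le h1 with h3 | h3
    · rw [← h3]; exact hn
    · have h4 := Nat.find_min hex (m := Nat.find hex - 1) (by omega)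
      push Not at h4
      have h5 := h4 (by omega)
      have h6 : Nat.find hex - 1 + 1 = Nat.find hex := by omega
      rw [h6] at h5
      exact h5
  have hJ0 : J₀ ≤ J := le_trans (le_max_left _ _) hJ1
  have hJ10 : 10 ≤ J := le_trans (le_max_right _ _) hJ1
  -- the largest `ν`
  have hfJ : (J - 1).factorial ≤ J ^ J := by
    calc (J - 1).factorial ≤ J.factorial := Nat.factorial_le (by omega)
      _ ≤ J ^ J := Nat.factorial_le_pow J
  have hJJ : J ^ J ≤ J ^ (8 * J) := Nat.pow_le_pow_right (by omega) (by omega)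
  have hf0 : 0 < (J - 1).factorial := Nat.factorial_pos _
  obtain ⟨ν, hν1, hν2⟩ : ∃ ν, (J - 1).factorial * 2 ^ ν ≤ n + 1 ∧
      n + 1 < 2 * ((J - 1).factorial * 2 ^ ν) := by
    classical
    have hex : ∃ ν, n + 1 < 2 * ((J - 1).factorial * 2 ^ ν) := by
      refine ⟨n + 1, ?_⟩
      have : n + 1 < 2 ^ (n + 1) := Nat.lt_two_pow_self
      nlinarith
    have h2 := Nat.find_spec hex
    refine ⟨Nat.find hex, ?_, h2⟩
    rcases Nat.eq_zero_or_pos (Nat.find hex) with h3 | h3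
    · rw [h3]; omega
    · have h4 := Nat.find_min hex (m := Nat.find hex - 1) (by omega)
      push Not at h4
      have h6 : 2 * ((J - 1).factorial * 2 ^ (Nat.find hex - 1)) =
          (J - 1).factorial * 2 ^ (Nat.find hex) := by
        conv_rhs => rw [← Nat.sub_add_cancel h3, pow_succ]
        ring
      rw [h6] at h4
      exact h4
  set N := (J - 1).factorial * 2 ^ ν with hN
  have hNJ : J ^ (8 * J) ≤ N := by omega
  have h2ν : J * J < 2 ^ ν := by
    by_contra hcon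
    push Not at hcon
    have h1 : N ≤ J ^ J * (J * J) := Nat.mul_le_mul hfJ hcon
    have h2 : J ^ J * (J * J) = J ^ (J + 2) := by ring
    have h3 : J ^ (J + 2) < J ^ (8 * J) := Nat.pow_lt_pow_right (by omega) (by omega)
    omega
  obtain ⟨ε, hε, hd⟩ := hcore J ν hJ0 hNJ h2ν
  have hN1 : 1 ≤ N := by
    have : 1 ≤ J ^ (8 * J) := Nat.one_le_pow _ _ (by omega)
    omega
  obtain ⟨p, hp, hmult⟩ := poly_of_signs N _ hN1 ε hε hd
  refine ⟨N - 1, p, by omega, by omega, hp, ?_⟩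
  -- numerics
  have hJr : (10 : ℝ) ≤ J := by exact_mod_cast hJ10
  have hlogJ : 1 ≤ Real.log J := by
    rw [Real.le_log_iff_exp_le (by linarith)]
    have := Real.exp_one_lt_d9
    linarith
  have hn0 : (0 : ℝ) < n := by
    have : 0 < n := by omega
    exact_mod_cast this
  have hup : Real.log n ≤ 20 * (J * Real.log J) := by
    have h1 : (n : ℝ) ≤ (((J : ℝ) ^ 2)) ^ (8 * (J + 1) + 1) := by
      have h2 : n ≤ (J ^ 2) ^ (8 * (J + 1) + 1) := by
        have h3 : (J + 1) ≤ J ^ 2 := by nlinarith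
        have h4 : (J + 1) ^ (8 * (J + 1)) ≤ (J ^ 2) ^ (8 * (J + 1)) := Nat.pow_le_pow_left h3 _
        have h5 : 2 ≤ J ^ 2 := by nlinarith
        rw [pow_succ (J ^ 2)]
        calc n ≤ 2 * (J + 1) ^ (8 * (J + 1)) := hJmax.le
          _ ≤ J ^ 2 * (J ^ 2) ^ (8 * (J + 1)) := Nat.mul_le_mul h5 h4
          _ = _ := by ring
      exact_mod_cast h2
    have h3 := Real.log_le_log hn0 h1
    rw [Real.log_pow, Real.log_pow] at h3
    push_cast at h3
    nlinarith
  have hlow : (J : ℝ) ≤ Real.log n := by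
    have h1 : ((J : ℝ)) ^ J ≤ n := by
      have : J ^ J ≤ n := by omega
      exact_mod_cast this
    have h3 := Real.log_le_log (by positivity) h1
    rw [Real.log_pow] at h3
    nlinarith
  have hll : Real.log J ≤ Real.log (Real.log n) := Real.log_le_log (by linarith) hlow
  have hratio : Real.log n / Real.log (Real.log n) ≤ 20 * J := by
    rw [div_le_iff₀ (by linarith)]
    nlinarith
  have hratio0 : 0 ≤ Real.log n / Real.log (Real.log n) := by
    apply div_nonneg <;> linarith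
  have hsq : (Real.log n / Real.log (Real.log n)) ^ 2 ≤ 400 * (J : ℝ) ^ 2 := by
    calc (Real.log n / Real.log (Real.log n)) ^ 2 ≤ (20 * (J : ℝ)) ^ 2 :=
          pow_le_pow_left₀ hratio0 hratio 2
      _ = _ := by ring
  have hmult' : (J : ℝ) ^ 2 ≤ 4 * (p.rootMultiplicity 1 : ℝ) := by
    have h1 : J ^ 2 ≤ 4 * (J * (J - 1) / 2) := sq_le_four J (by omega)
    have h3 : J ^ 2 ≤ 4 * p.rootMultiplicity 1 := by omega
    exact_mod_cast h3
  linarith

end Pool.Agent.Run7.h865.LW
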