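import Mathlib

/-!
# MP_efea25_an, Q1: Littlewood polynomials with a zero of order `c (log n / log log n)²` at `1`

Let `B = ∏_{k < J} (1 - X^k)^(J - k)`, of degree `D`, with a zero of order `m = J (J - 1) / 2` at `1`.

* (SUP) `|B(z)| ≤ exp (J log J / 2 + J)` on the unit circle, so (COEF) its coefficients are this small.
* `B(X) ∣ B(X^a)` for all `a ≥ 1`, `B(0) = 1` and the leading coefficient is `± 1`.
* (RIG, rigidity) If `h : {0, …, N-1} → ℝ` satisfies the recurrence of `B` and the sum of the squares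
  of the distances of the `h j` to the nearest integers `z j` is at most `K`, and `N` is large, then `z`
  satisfies the recurrence of `B` too.
* (FOU, circle method) `∏ 2 cos (2 π a w_j / q)` summed over `a` modulo `q` counts the sign vectors
  `ε` with `∑ ε_j w_j = 0`. The minor arcs contribute at most `q exp (-2K)`; on the major arcs
  the product is nonnegative by rigidity if the sum of the `z j` is even (PAR).
* (TEST) there is one integer sequence `w` such that `∑ ε_j w_j = 0` implies `B ∣ ∑ ε_j X^j`.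
-/

set_option autoImplicit false

open Polynomial Finset

namespace Pool.Agent.Run7.h865.LW

/-- The functional `P ↦ ∑ P_k f k` of a sequence `f`. -/
noncomputable def L {M : Type} [AddCommGroup M] (f : ℕ → M) (P : ℤ[X]) : M :=
  P.sum fun k c => c • f k

/-- `B J = ∏_{k=1}^{J} (1 - X^k)^(J-k)`. -/
noncomputable def B (J : ℕ) : ℤ[X] := ∏ k ∈ range J, (1 - X ^ (k + 1)) ^ (J - 1 - k)

/-- the degree of `B J` -/
noncomputable def D (J : ℕ) : ℕ := (B J).natDegree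

/-- (SUP) Proof. `|1 - z| ≤ (2 / (1 + r)) |1 - r z|` for `|z| = 1`, `0 ≤ r < 1`. With `r = 1 - 1/J`, and
`log |1 - r z^k| = - ∑_{n ≥ 1} r^n Re (z^(k n)) / n` and
`∑_{k<J} (J - k) Re (w^k) = (|1 + w + … + w^(J-1)|² - J) / 2 ≥ - J / 2` for `|w| = 1`
one gets `∑_k (J - k) log |1 - r z^k| ≤ (J / 2) ∑ r^n / n = (J / 2) log J`, and
`(2 / (1 + r))^(J (J - 1) / 2) ≤ exp J`. -/
def S_SUP : Prop := ∀ J : ℕ, 2 ≤ J → ∀ z : ℂ, ‖z‖ = 1 →
  ‖aeval z (B J)‖ ≤ Real.exp ((J : ℝ) / 2 * Real.log J + J)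

/-- (COEF) Cauchy's inequality for the coefficients of a polynomial. -/
def S_COEF : Prop := ∀ (P : ℤ[X]) (C : ℝ), (∀ z : ℂ, ‖z‖ = 1 → ‖aeval z P‖ ≤ C) →
  ∀ k : ℕ, |(P.coeff k : ℝ)| ≤ C

/-- (RIG) rigidity. `R` bounds the number of the windows in which the recurrence fails; in a run of
`A * D` good positions one extends to the right and to the left using `B ∣ B(X^a)`, `a = 1, …, A`. -/
def S_RIG : Prop := ∀ (P : ℤ[X]) (N A R : ℕ) (K C : ℝ) (h : ℕ → ℝ),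
  P.coeff 0 = 1 → |P.leadingCoeff| = 1 → 1 ≤ P.natDegree → (∀ a : ℕ, 1 ≤ a → P ∣ expand ℤ a P) →
  (∀ k : ℕ, |(P.coeff k : ℝ)| ≤ C) → 0 ≤ K →
  ∑ j ∈ range N, (h j - round (h j)) ^ 2 ≤ K →
  (∀ j : ℕ, j + P.natDegree < N → L (fun k => h (j + k)) P = 0) →
  1 ≤ A → 4 * K * ((P.natDegree + 1) * C) ^ 2 < A →
  ((P.natDegree : ℝ) + 1) ^ 2 * C ^ 2 * K ≤ R →
  P.natDegree + (A * P.natDegree + 1) * (R + 1) ≤ N →
  ∀ j : ℕ, j + P.natDegree < N → L (fun k => round (h (j + k))) P = 0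

/-- (FOU) the circle method. Proof. If there is no such `ε` then all the integers `c = ∑ ε_j w_j` are nonzero
and smaller than `q` in absolute value, so that `∑_{a < q} exp (2 π i a c / q) = 0`; summing over `ε`,
`∑_{a < q} ∏_j (2 cos (2 π a w_j / q)) = 0`. But the term of `a = 0` is `2^N`, the terms with
`∑ ‖2 a w_j / q‖² ≤ K` are nonnegative by `hmaj` (the sign is `(-1)^∑ z_j` as `|h - z| ≤ 1/2`), and
each other term is less than `2^N exp (- 2 K) ≤ 2^N / q` in absolute value, as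
`|cos (π (z + e))| ≤ 1 - 2 e² ≤ exp (-2 e²)` for `|e| ≤ 1/2` (`Real.cos_quadratic_upper_bound`). -/
def S_FOU : Prop := ∀ (N q : ℕ) (w : ℕ → ℤ) (K : ℝ), 0 < q →
  ∑ j ∈ range N, |w j| < (q : ℤ) → (q : ℝ) ≤ Real.exp (2 * K) →
  (∀ a : ℕ, ∑ j ∈ range N, (2 * (a : ℝ) * w j / q - round (2 * (a : ℝ) * w j / q)) ^ 2 ≤ K →
    Even (∑ j ∈ range N, round (2 * (a : ℝ) * w j / q))) →
  ∃ ε : ℕ → ℤ, (∀ j, ε j = 1 ∨ ε j = -1) ∧ ∑ j ∈ range N, ε j * w j = 0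

/-- (TEST) the test sequence. Proof. Let `U = 1 / B = ∏ (1 + X^k + X^(2k) + …)^(J-k)`, a power series with
coefficients `0 ≤ u_n ≤ (n + 1) ^ (J * J)` (product of at most `J * J` series with coefficients in `[0, 1]`),
and `w_i (j) = u_(N-1-i-j)` (zero if `i + j ≥ N`) for `i < D`, `w = ∑_i X₀^i w_i`, `X₀ = (4 N)^(J*J+2)`.
The recurrence holds in `[0, N)` since `B U = 1`. If `∑_j ε_j w_j = 0` then all the numbers
`∑_j ε_j w_i (j)` are `0` (they are smaller than `X₀ / 2`), i.e. the coefficients of `P U`,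
`P = ∑ ε_j X^j`, at the `D` indices `N - D, …, N - 1` vanish. With `T` the truncation of `P U` to degrees
`< N - D`, `P - B T` has degree `< N` and equals `B (P U - T)`, a multiple of `X^N`, so it is `0`. -/
def S_TEST : Prop := ∀ J N : ℕ, 2 ≤ J → D J < N → ∃ w : ℕ → ℤ,
  (∀ j : ℕ, j + D J < N → L (fun k => w (j + k)) (B J) = 0) ∧
  (∀ ε : ℕ → ℤ, (∀ j, |ε j| ≤ 1) → ∑ j ∈ range N, ε j * w j = 0 →
    B J ∣ ∑ j ∈ range N, C (ε j) * X ^ j) ∧
  ∑ j ∈ range N, |w j| ≤ (4 * (N : ℤ)) ^ ((J * J + 3) * (D J + 1))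

/-- (PAR) parity. Proof. Let `Q = (J-1)!`, `V = ∑_{i<Q} X^i`, so `(X - 1) V = X^Q - 1`; `B` divides
`(X^Q - 1)^(2^ν - 1)`, with quotient `H`, and `G = H V`. Modulo `2`, `(X - 1) (∑_{j<N} X^j - B G) =
X^N - 1 - (X^Q - 1)^(2^ν) = 0`. -/
def S_PAR : Prop := ∀ J N ν : ℕ, 2 ≤ J → N = (J - 1).factorial * 2 ^ ν → J * J < 2 ^ ν →
  ∃ G : ℤ[X], G.natDegree + D J < N ∧ ∀ k : ℕ, Even ((∑ j ∈ range N, X ^ j - B J * G).coeff k)

/-- (BAS) basic properties of `B J`; `expand ℤ a` is the substitution `X ↦ X^a`. -/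
def S_BAS : Prop := ∀ J : ℕ, 2 ≤ J →
  (B J).coeff 0 = 1 ∧ |(B J).leadingCoeff| = 1 ∧ 1 ≤ D J ∧ D J ≤ J ^ 3 ∧
  (∀ a : ℕ, 1 ≤ a → B J ∣ expand ℤ a (B J)) ∧ ((X - 1 : ℤ[X]) ^ (J * (J - 1) / 2) ∣ B J)

/-- (NUM) the numerical inequalities, with `C = exp (J log J / 2 + J)`, `K = J^12 log (4 N)`: for all large `J` and
all `N` with `J^(8J) ≤ N ≤ 2 J^(8J)` there are `A`, `R` as in (RIG). -/
def S_NUM : Prop := ∃ J₀ : ℕ, 2 ≤ J₀ ∧ ∀ J N d : ℕ, J₀ ≤ J → J ^ (8 * J) ≤ N → 1 ≤ d → d ≤ J ^ 3 →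
  ∃ A R : ℕ, 1 ≤ A ∧
    4 * ((J : ℝ) ^ 12 * Real.log (4 * N)) * ((d + 1) * Real.exp ((J : ℝ) / 2 * Real.log J + J)) ^ 2 < A ∧
    ((d : ℝ) + 1) ^ 2 * Real.exp ((J : ℝ) / 2 * Real.log J + J) ^ 2 *
      ((J : ℝ) ^ 12 * Real.log (4 * N)) ≤ R ∧
    d + (A * d + 1) * (R + 1) ≤ N

end Pool.Agent.Run7.h865.LW
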