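import Pool.Agent.Run7.h865.LW.Iface

/-! # (RIG) rigidity of integer sequences close to solutions of the recurrence -/

set_option autoImplicit false

open Polynomial Finset

namespace Pool.Agent.Run7.h865.LW

section Lfun

variable {M : Type} [AddCommGroup M]

lemma L_zero (f : ℕ → M) : L f 0 = 0 := by simp [L]

lemma L_add (f : ℕ → M) (P Q : ℤ[X]) : L f (P + Q) = L f P + L f Q := by
  unfold L
  exact Polynomial.sum_add_index P Q _ (fun i => zero_smul ℤ (f i)) (fun a b c => add_smul b c (f a))

lemma L_monomial (f : ℕ → M) (n : ℕ) (c : ℤ) : L f (monomial n c) = c • f n := by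
  unfold L
  exact Polynomial.sum_monomial_index c (fun k (c : ℤ) => c • f k) (zero_smul ℤ (f n))

lemma L_sum (f : ℕ → M) {ι : Type} (s : Finset ι) (F : ι → ℤ[X]) :
    L f (∑ i ∈ s, F i) = ∑ i ∈ s, L f (F i) := by
  classical
  induction s using Finset.induction_on with
  | empty => simp [L_zero]
  | insert a s ha ih => rw [Finset.sum_insert ha, Finset.sum_insert ha, L_add, ih]

lemma L_range (f : ℕ → M) (P : ℤ[X]) (n : ℕ) (h : P.natDegree < n) :
    L f P = ∑ k ∈ range n, P.coeff k • f k := by
  unfold L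
  exact P.sum_over_range' (by simp) n h

lemma L_mul_monomial (f : ℕ → M) (P : ℤ[X]) (i : ℕ) (c : ℤ) :
    L f (P * monomial i c) = c • L (fun k => f (i + k)) P := by
  induction P using Polynomial.induction_on' with
  | add p q hp hq => rw [add_mul, L_add, hp, hq, L_add, smul_add]
  | monomial n a =>
    rw [monomial_mul_monomial, L_monomial, L_monomial, smul_smul, mul_comm a c, add_comm n i]

lemma L_mul (f : ℕ → M) (P Q : ℤ[X]) (n : ℕ) (h : Q.natDegree < n) :
    L f (P * Q) = ∑ i ∈ range n, Q.coeff i • L (fun k => f (i + k)) P := by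
  conv_lhs => rw [Q.as_sum_range' n h]
  rw [Finset.mul_sum, L_sum]
  exact Finset.sum_congr rfl fun i _ => L_mul_monomial f P i _

lemma L_expand (f : ℕ → M) (P : ℤ[X]) (a : ℕ) :
    L f (expand ℤ a P) = L (fun k => f (k * a)) P := by
  induction P using Polynomial.induction_on' with
  | add p q hp hq => rw [map_add, L_add, hp, hq, L_add]
  | monomial n c => rw [expand_monomial, L_monomial, L_monomial]

end Lfun

/-- the quotient of `P(X^a)` by `P` -/
lemma quot (P : ℤ[X]) (h0 : P.coeff 0 = 1) (hl : |P.leadingCoeff| = 1) (a : ℕ) (ha : 1 ≤ a)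
    (hd : P ∣ expand ℤ a P) : ∃ G : ℤ[X], expand ℤ a P = P * G ∧
      G.natDegree = (a - 1) * P.natDegree ∧ G.coeff 0 = 1 ∧ G.coeff ((a - 1) * P.natDegree) = 1 := by
  obtain ⟨G, hG⟩ := hd
  have hP : P ≠ 0 := by rintro rfl; simp at h0
  have hE : expand ℤ a P ≠ 0 := by
    rwa [Ne, expand_eq_zero (by omega)]
  have hG0 : G ≠ 0 := by rintro rfl; rw [mul_zero] at hG; exact hE hG
  have hdeg : G.natDegree = (a - 1) * P.natDegree := by
    have h1 := congrArg natDegree hG
    rw [natDegree_expand, natDegree_mul hP hG0] at h1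
    obtain ⟨b, rfl⟩ : ∃ b, a = b + 1 := ⟨a - 1, by omega⟩
    simp only [Nat.add_sub_cancel]
    nlinarith
  refine ⟨G, hG, hdeg, ?_, ?_⟩
  · have h1 := congrArg (fun p => coeff p 0) hG
    simp only [mul_coeff_zero] at h1
    rw [h0, one_mul] at h1
    rw [← h1, coeff_expand (by omega)]
    simp [h0]
  · have h1 := congrArg leadingCoeff hG
    rw [leadingCoeff_expand (by omega), leadingCoeff_mul] at h1
    have h2 : P.leadingCoeff ≠ 0 := leadingCoeff_ne_zero.mpr hP
    have h3 : G.leadingCoeff = 1 := by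
      have := mul_left_cancel₀ h2 (h1.symm.trans (mul_one _).symm)
      exact this
    rw [← hdeg]
    exact h3

/-- expansion of `∑ β_k f (v + k a)` -/
lemma key {M : Type} [AddCommGroup M] (f : ℕ → M) (P G : ℤ[X]) (a v : ℕ)
    (hG : expand ℤ a P = P * G) :
    ∑ k ∈ range (P.natDegree + 1), P.coeff k • f (v + k * a) =
      ∑ i ∈ range (G.natDegree + 1), G.coeff i • L (fun k => f (v + i + k)) P := by
  have h1 := L_mul (fun k => f (v + k)) P G _ (Nat.lt_succ_self G.natDegree)
  rw [← hG, L_expand, L_range _ _ _ (Nat.lt_succ_self P.natDegree)] at h1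
  simp only [Nat.succ_eq_add_one] at h1
  rw [h1]
  refine Finset.sum_congr rfl fun i _ => ?_
  simp only [add_assoc]

/-- averaging -/
lemma avg (A : ℕ) (S : Finset ℕ) (e : ℕ → ℝ) (K C δ : ℝ) (d : ℕ) (pos : ℕ → ℕ → ℕ) (hS : S.card ≤ d)
    (hK : 0 ≤ K) (hA : 1 ≤ A)
    (h1 : ∀ a ∈ Icc 1 A, |δ| ≤ 1 / 2 + ∑ k ∈ S, C * |e (pos a k)|)
    (h2 : ∀ k ∈ S, ∑ a ∈ Icc 1 A, e (pos a k) ^ 2 ≤ K)
    (h3 : 4 * K * (((d : ℝ) + 1) * C) ^ 2 < A) : |δ| < 1 := by
  have hA' : (1 : ℝ) ≤ A := by exact_mod_cast hA
  set T : ℝ := ∑ k ∈ S, ∑ a ∈ Icc 1 A, |e (pos a k)| with hT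
  have hT0 : 0 ≤ T := by positivity
  have hsum : (A : ℝ) * |δ| ≤ A / 2 + C * T := by
    have := Finset.sum_le_sum h1
    rw [Finset.sum_add_distrib, Finset.sum_const, Finset.sum_const, Nat.card_Icc] at this
    simp only [add_tsub_cancel_right, nsmul_eq_mul] at this
    rw [Finset.sum_comm] at this
    simp only [← Finset.mul_sum] at this
    rw [← hT] at this
    linarith
  have hT2 : T ^ 2 ≤ (d : ℝ) ^ 2 * A * K := by
    have h4 : T = ∑ x ∈ S ×ˢ Icc 1 A, |e (pos x.2 x.1)| := by
      rw [Finset.sum_product]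
    have h5 : T ^ 2 ≤ ((S ×ˢ Icc 1 A).card : ℝ) * ∑ x ∈ S ×ˢ Icc 1 A, |e (pos x.2 x.1)| ^ 2 := by
      rw [h4]; exact sq_sum_le_card_mul_sum_sq
    have h6 : ∑ x ∈ S ×ˢ Icc 1 A, |e (pos x.2 x.1)| ^ 2 ≤ d * K := by
      rw [Finset.sum_product]
      calc ∑ x ∈ S, ∑ y ∈ Icc 1 A, |e (pos y x)| ^ 2 ≤ ∑ x ∈ S, K := by
            refine Finset.sum_le_sum fun k hk => ?_
            simpa [sq_abs] using h2 k hk
        _ = S.card * K := by simp
        _ ≤ d * K := by gcongr
    have h7 : ((S ×ˢ Icc 1 A).card : ℝ) ≤ d * A := by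
      rw [Finset.card_product, Nat.card_Icc]
      push_cast
      gcongr
    calc T ^ 2 ≤ _ := h5
      _ ≤ (d * A) * (d * K) := by
          apply mul_le_mul h7 h6 (by positivity) (by positivity)
      _ = _ := by ring
  have hCT : C * T < A / 2 := by
    by_contra hcon
    push Not at hcon
    have h8 : ((A : ℝ) / 2) ^ 2 ≤ (C * T) ^ 2 := by
      apply pow_le_pow_left₀ (by positivity) hcon
    have h9 : (C * T) ^ 2 ≤ C ^ 2 * ((d : ℝ) ^ 2 * A * K) := by
      rw [mul_pow]; gcongr
    have h10 : C ^ 2 * ((d : ℝ) ^ 2 * A * K) * 4 ≤ A * (4 * K * (((d : ℝ) + 1) * C) ^ 2) := by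
      have : (d : ℝ) ^ 2 ≤ ((d : ℝ) + 1) ^ 2 := by
        apply pow_le_pow_left₀ (by positivity); linarith
      have h11 : 0 ≤ 4 * K * C ^ 2 * A := by positivity
      nlinarith [mul_le_mul_of_nonneg_left this h11]
    have h12 : (A : ℝ) * (4 * K * (((d : ℝ) + 1) * C) ^ 2) < A * A := by
      apply mul_lt_mul_of_pos_left h3; linarith
    nlinarith
  by_contra hcon
  push Not at hcon
  nlinarith

theorem t_RIG : S_RIG := by
  intro P N A R K C h h0 hl hd hdvd hC hK hS hrec hA hA2 hR hN
  set d := P.natDegree with hd_def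
  obtain ⟨z, hz⟩ : ∃ z : ℕ → ℤ, ∀ j, z j = round (h j) := ⟨fun j => round (h j), fun j => rfl⟩
  obtain ⟨e, he⟩ : ∃ e : ℕ → ℝ, ∀ j, e j = h j - z j := ⟨fun j => h j - z j, fun j => rfl⟩
  have hC0 : 0 ≤ C := le_trans (abs_nonneg _) (hC 0)
  have he2 : ∀ j, |e j| ≤ 1 / 2 := fun j => by rw [he, hz]; exact abs_sub_round (h j)
  -- energy over injective images
  have hen : ∀ (S : Finset ℕ) (g : ℕ → ℕ), Set.InjOn g S → (∀ a ∈ S, g a < N) →
      ∑ a ∈ S, e (g a) ^ 2 ≤ K := by
    intro S g hg hgN
    rw [← Finset.sum_image (f := fun j => e j ^ 2) hg]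
    have hS' : ∑ j ∈ range N, e j ^ 2 ≤ K := by
      refine le_trans (le_of_eq ?_) hS
      exact Finset.sum_congr rfl fun j _ => by rw [he, hz]
    refine le_trans (Finset.sum_le_sum_of_subset_of_nonneg ?_ ?_) hS'
    · intro x hx
      obtain ⟨a, ha, rfl⟩ := Finset.mem_image.mp hx
      exact mem_range.mpr (hgN a ha)
    · intros; positivity
  obtain ⟨Z, hZdef⟩ : ∃ Z : ℕ → ℤ, ∀ j, Z j = L (fun k => z (j + k)) P :=
    ⟨fun j => L (fun k => z (j + k)) P, fun j => rfl⟩
  -- expansion
  have hexp : ∀ (G : ℤ[X]) (a v : ℕ), expand ℤ a P = P * G → v + G.natDegree + d < N →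
      ∑ k ∈ range (d + 1), (P.coeff k : ℝ) * e (v + k * a) =
        - ∑ i ∈ range (G.natDegree + 1), (G.coeff i : ℝ) * (Z (v + i) : ℝ) := by
    intro G a v hG hv
    have h1 := key h P G a v hG
    have h2 := key z P G a v hG
    have h3 : ∑ i ∈ range (G.natDegree + 1), G.coeff i • L (fun k => h (v + i + k)) P = 0 := by
      refine Finset.sum_eq_zero fun i hi => ?_
      rw [hrec (v + i) (by have := mem_range.mp hi; omega), smul_zero]
    rw [h3] at h1
    have h4 : ((∑ k ∈ range (d + 1), P.coeff k • z (v + k * a) : ℤ) : ℝ) =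
        ((∑ i ∈ range (G.natDegree + 1), G.coeff i • L (fun k => z (v + i + k)) P : ℤ) : ℝ) := by
      rw [← h2]
    push_cast at h4
    simp only [smul_eq_mul, Int.cast_mul, ← hZdef, zsmul_eq_mul] at h1 h4
    rw [← h4]
    have h5 : ∑ k ∈ range (d + 1), (P.coeff k : ℝ) * e (v + k * a) =
        ∑ k ∈ range (d + 1), (P.coeff k : ℝ) * h (v + k * a) -
          ∑ k ∈ range (d + 1), (P.coeff k : ℝ) * (z (v + k * a) : ℝ) := by
      rw [← Finset.sum_sub_distrib]
      exact Finset.sum_congr rfl fun k _ => by rw [he]; ring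
    rw [h5, h1]
    ring
  have hβd : |(P.coeff d : ℝ)| = 1 := by
    have : P.coeff d = P.leadingCoeff := rfl
    rw [this]; exact_mod_cast hl
  have hβ0 : |(P.coeff 0 : ℝ)| = 1 := by rw [h0]; simp
  -- right extension
  have right : ∀ u s : ℕ, s + A * d ≤ u → u + d < N → (∀ j, s ≤ j → j < u → Z j = 0) → Z u = 0 := by
    intro u s hs hu hgood
    have hvA : ∀ a ∈ Icc 1 A, (a - 1) * d + s ≤ u := by
      intro a ha
      rw [mem_Icc] at ha
      have : (a - 1) * d ≤ A * d := Nat.mul_le_mul_right _ (by omega)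
      omega
    have hlt : |(Z u : ℝ)| < 1 := by
      refine avg A (range d) e K C (Z u) d (fun a k => u - (a - 1) * d + k * a) (by simp) hK hA ?_ ?_ hA2
      · intro a ha
        have ha' := mem_Icc.mp ha
        obtain ⟨G, hG, hGd, -, hG1⟩ := quot P h0 hl a ha'.1 (hdvd a ha'.1)
        rw [← hd_def] at hGd hG1
        have h1 := hexp G a (u - (a - 1) * d) hG (by have := hvA a ha; omega)
        have h2 : ∑ i ∈ range (G.natDegree + 1), (G.coeff i : ℝ) * (Z (u - (a - 1) * d + i) : ℝ) =
            Z u := by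
          rw [Finset.sum_range_succ, hGd, hG1]
          rw [Finset.sum_eq_zero, zero_add, Int.cast_one, one_mul]
          · congr 2
            have := hvA a ha; omega
          · intro i hi
            rw [mem_range] at hi
            rw [hgood _ (by have := hvA a ha; omega) (by have := hvA a ha; omega)]
            simp
        rw [h2] at h1
        have h3 : |(Z u : ℝ)| = |∑ k ∈ range (d + 1), (P.coeff k : ℝ) * e (u - (a - 1) * d + k * a)| := by
          rw [h1, abs_neg]
        rw [h3, Finset.sum_range_succ]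
        refine le_trans (abs_add_le _ _) ?_
        rw [add_comm]
        apply add_le_add
        · rw [abs_mul, hβd, one_mul]; exact he2 _
        · refine le_trans (Finset.abs_sum_le_sum_abs _ _) (Finset.sum_le_sum fun k _ => ?_)
          rw [abs_mul]
          exact mul_le_mul_of_nonneg_right (hC k) (abs_nonneg _)
      · intro k hk
        rw [mem_range] at hk
        have hpos : ∀ a ∈ Icc 1 A, u - (a - 1) * d + k * a + a * (d - k) = u + d := by
          intro a ha
          have h1 := hvA a ha
          rw [mem_Icc] at ha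
          obtain ⟨b, rfl⟩ : ∃ b, a = b + 1 := ⟨a - 1, by omega⟩
          obtain ⟨c, hc⟩ : ∃ c, d = k + c := ⟨d - k, by omega⟩
          simp only [Nat.add_sub_cancel] at h1 ⊢
          obtain ⟨t, ht⟩ : ∃ t, u = b * d + t := ⟨u - b * d, by omega⟩
          rw [ht, hc]
          simp only [Nat.add_sub_cancel_left]
          ring
        refine hen (Icc 1 A) (fun a => u - (a - 1) * d + k * a) ?_ ?_
        · intro a ha b hb hab
          have h1 := hpos a (by exact_mod_cast ha)
          have h2 := hpos b (by exact_mod_cast hb)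
          simp only at hab
          have h3 : a * (d - k) = b * (d - k) := by omega
          exact Nat.eq_of_mul_eq_mul_right (by omega) h3
        · intro a ha
          have := hpos a ha
          omega
    have h1 : |Z u| < 1 := by exact_mod_cast hlt
    exact Int.abs_lt_one_iff.mp h1
  -- left extension
  have left : ∀ u : ℕ, u + A * d + d < N → (∀ j, u < j → j ≤ u + A * d → Z j = 0) → Z u = 0 := by
    intro u hu hgood
    have hlt : |(Z u : ℝ)| < 1 := by
      refine avg A (Icc 1 d) e K C (Z u) d (fun a k => u + k * a) (by simp) hK hA ?_ ?_ hA2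
      · intro a ha
        have ha' := mem_Icc.mp ha
        obtain ⟨G, hG, hGd, hG0, -⟩ := quot P h0 hl a ha'.1 (hdvd a ha'.1)
        rw [← hd_def] at hGd
        have hle : (a - 1) * d ≤ A * d := Nat.mul_le_mul_right _ (by omega)
        have h1 := hexp G a u hG (by omega)
        have h2 : ∑ i ∈ range (G.natDegree + 1), (G.coeff i : ℝ) * (Z (u + i) : ℝ) = Z u := by
          rw [Finset.sum_range_succ']
          rw [Finset.sum_eq_zero, hG0, zero_add, Int.cast_one, one_mul, add_zero]
          intro i hi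
          rw [mem_range] at hi
          rw [hgood _ (by omega) (by omega)]
          simp
        rw [h2] at h1
        have h3 : |(Z u : ℝ)| = |∑ k ∈ range (d + 1), (P.coeff k : ℝ) * e (u + k * a)| := by
          rw [h1, abs_neg]
        rw [h3, Finset.sum_range_succ']
        refine le_trans (abs_add_le _ _) ?_
        rw [add_comm]
        apply add_le_add
        · rw [abs_mul, hβ0, one_mul]; exact he2 _
        · refine le_trans (Finset.abs_sum_le_sum_abs _ _) ?_
          have h4 : ∑ k ∈ Icc 1 d, C * |e (u + k * a)| = ∑ k ∈ range d, C * |e (u + (k + 1) * a)| := by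
            rw [← Finset.Ico_succ_right_eq_Icc, Finset.sum_Ico_eq_sum_range]
            simp only [Nat.succ_eq_succ, Nat.succ_eq_add_one, Nat.add_sub_cancel]
            exact Finset.sum_congr rfl fun k _ => by rw [add_comm 1 k]
          rw [h4]
          refine Finset.sum_le_sum fun k _ => ?_
          rw [abs_mul]
          exact mul_le_mul_of_nonneg_right (hC (k + 1)) (abs_nonneg _)
      · intro k hk
        rw [mem_Icc] at hk
        refine hen (Icc 1 A) (fun a => u + k * a) ?_ ?_
        · intro a ha b hb hab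
          simp only at hab
          have h3 : k * a = k * b := by omega
          exact Nat.eq_of_mul_eq_mul_left (by omega) h3
        · intro a ha
          rw [mem_Icc] at ha
          have : k * a ≤ A * d := by
            rw [mul_comm A d]; exact Nat.mul_le_mul hk.2 ha.2
          omega
    have h1 : |Z u| < 1 := by exact_mod_cast hlt
    exact Int.abs_lt_one_iff.mp h1
  -- the bad positions
  have hZ : ∀ j, j + d < N → (Z j : ℝ) = - ∑ k ∈ range (d + 1), (P.coeff k : ℝ) * e (j + k) := by
    intro j hj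
    have h1 := hexp 1 1 j (by simp) (by simpa using hj)
    simp at h1
    rw [h1]; simp
  classical
  set Bad : Finset ℕ := (range (N - d)).filter (fun j => Z j ≠ 0) with hBad
  have hbad : Bad.card ≤ R := by
    have h1 : ∀ j ∈ Bad, (1 : ℝ) ≤ ((d : ℝ) + 1) * C ^ 2 * ∑ k ∈ range (d + 1), e (j + k) ^ 2 := by
      intro j hj
      rw [hBad, mem_filter, mem_range] at hj
      have h2 : (1 : ℝ) ≤ (Z j : ℝ) ^ 2 := by
        have : (1 : ℤ) ≤ Z j ^ 2 := by
          have := sq_pos_of_ne_zero hj.2
          omega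
        exact_mod_cast this
      rw [hZ j (by omega), neg_sq] at h2
      refine le_trans h2 ?_
      refine le_trans (Finset.sum_mul_sq_le_sq_mul_sq _ _ _) ?_
      apply mul_le_mul_of_nonneg_right _ (by positivity)
      calc ∑ k ∈ range (d + 1), (P.coeff k : ℝ) ^ 2 ≤ ∑ k ∈ range (d + 1), C ^ 2 := by
            refine Finset.sum_le_sum fun k _ => ?_
            rw [← sq_abs]
            exact pow_le_pow_left₀ (abs_nonneg _) (hC k) 2
        _ = _ := by simp
    have h3 : (Bad.card : ℝ) ≤ ((d : ℝ) + 1) ^ 2 * C ^ 2 * K := by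
      calc (Bad.card : ℝ) = ∑ j ∈ Bad, (1 : ℝ) := by simp
        _ ≤ ∑ j ∈ Bad, ((d : ℝ) + 1) * C ^ 2 * ∑ k ∈ range (d + 1), e (j + k) ^ 2 :=
            Finset.sum_le_sum h1
        _ = ((d : ℝ) + 1) * C ^ 2 * ∑ k ∈ range (d + 1), ∑ j ∈ Bad, e (j + k) ^ 2 := by
            rw [← Finset.mul_sum, Finset.sum_comm]
        _ ≤ ((d : ℝ) + 1) * C ^ 2 * ∑ k ∈ range (d + 1), K := by
            apply mul_le_mul_of_nonneg_left _ (by positivity)
            refine Finset.sum_le_sum fun k hk => ?_
            rw [mem_range] at hk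
            refine hen Bad (fun j => j + k) ?_ ?_
            · intro a _ b _ hab
              simpa using hab
            · intro a ha
              rw [hBad, mem_filter, mem_range] at ha
              omega
        _ = _ := by simp; ring
    exact_mod_cast h3.trans hR
  -- pigeonhole
  obtain ⟨i, hi, hgoodi⟩ : ∃ i ∈ range (R + 1), ∀ j, i * (A * d + 1) ≤ j →
      j < (i + 1) * (A * d + 1) → Z j = 0 := by
    by_contra hcon
    push Not at hcon
    choose! g hg1 hg2 hg3 using hcon
    have h1 : (range (R + 1)).card ≤ Bad.card := by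
      refine Finset.card_le_card_of_injOn g ?_ ?_
      · intro i hi
        have hi' : i ∈ range (R + 1) := by exact_mod_cast hi
        have h2 := hg2 i hi'
        have h4 : (i + 1) * (A * d + 1) ≤ (A * d + 1) * (R + 1) := by
          rw [mul_comm]; exact Nat.mul_le_mul_left _ (by have := mem_range.mp hi'; omega)
        rw [hBad, Finset.coe_filter]
        refine ⟨mem_range.mpr (by omega), hg3 i hi'⟩
      · intro i hi j hj hij
        have hi' : i ∈ range (R + 1) := by exact_mod_cast hi
        have hj' : j ∈ range (R + 1) := by exact_mod_cast hj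
        have hdiv : ∀ i ∈ range (R + 1), g i / (A * d + 1) = i := by
          intro i hi
          exact Nat.div_eq_of_lt_le (hg1 i hi) (hg2 i hi)
        rw [← hdiv i hi', ← hdiv j hj', hij]
    rw [card_range] at h1
    omega
  rw [mem_range] at hi
  set W := A * d + 1 with hW
  have hiW : (i + 1) * W ≤ W * (R + 1) := by
    rw [mul_comm]; exact Nat.mul_le_mul_left _ (by omega)
  have hiW' : (i + 1) * W = i * W + W := by ring
  have hr : ∀ u, i * W ≤ u → u + d < N → Z u = 0 := by
    intro u
    induction u using Nat.strong_induction_on with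
    | _ u ih =>
      intro hu1 hu2
      by_cases hc : u < (i + 1) * W
      · exact hgoodi u hu1 hc
      · push Not at hc
        refine right u (i * W) (by omega) hu2 ?_
        intro j hj1 hj2
        exact ih j hj2 hj1 (by omega)
  have hlft : ∀ t, ∀ j, i * W ≤ j + t → j < (i + 1) * W → Z j = 0 := by
    intro t
    induction t with
    | zero => intro j hj1 hj2; exact hgoodi j (by simpa using hj1) hj2
    | succ t ih =>
      intro j hj1 hj2
      by_cases hc : i * W ≤ j + t
      · exact ih j hc hj2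
      · push Not at hc
        refine left j (by omega) ?_
        intro k hk1 hk2
        exact ih k (by omega) (by omega)
  intro j hj
  have hfin : Z j = 0 := by
    by_cases hc : i * W ≤ j
    · exact hr j hc hj
    · push Not at hc
      exact hlft (i * W) j (by omega) (by omega)
  have h9 : (fun k => round (h (j + k))) = fun k => z (j + k) := by
    funext k; rw [hz]
  rw [h9, ← hZdef, hfin]

end Pool.Agent.Run7.h865.LW
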